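import Mathlib

/-!
# Periodic points of continuous maps of countable compact sets
-/

set_option autoImplicit false

open Filter Topology

namespace Pool.Agent.H343.Hr

theorem exists_periodic {α : Type*} [TopologicalSpace α] [T2Space α] {T : α → α}
    (hT : Continuous T) {Z : Set α} (hZc : IsCompact Z) (hZ : Z.Nonempty)
    (hTZ : Set.MapsTo T Z Z) (hcount : Z.Countable) :
    ∃ h ∈ Z, ∃ p : ℕ, 0 < p ∧ T^[p] h = h := by
  obtain ⟨M, hM⟩ := zorn_superset
    {M : Set α | M ⊆ Z ∧ IsClosed M ∧ M.Nonempty ∧ Set.MapsTo T M M} (by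
      intro c hc hchain
      rcases c.eq_empty_or_nonempty with rfl | hne
      · exact ⟨Z, ⟨subset_rfl, hZc.isClosed, hZ, hTZ⟩, by simp⟩
      · refine ⟨⋂₀ c, ⟨?_, ?_, ?_, ?_⟩, fun s hs => Set.sInter_subset_of_mem hs⟩
        · obtain ⟨s, hs⟩ := hne
          exact (Set.sInter_subset_of_mem hs).trans (hc hs).1
        · exact isClosed_sInter fun s hs => (hc hs).2.1
        · have hne' : Nonempty c := hne.to_subtype
          refine IsCompact.nonempty_sInter_of_directed_nonempty_isCompact_isClosed
            ?_ (fun s hs => (hc hs).2.2.1)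
            (fun s hs => hZc.of_isClosed_subset (hc hs).2.1 (hc hs).1)
            (fun s hs => (hc hs).2.1)
          intro a ha b hb
          rcases hchain.total ha hb with h | h
          · exact ⟨a, ha, subset_rfl, h⟩
          · exact ⟨b, hb, h, subset_rfl⟩
        · intro x hx s hs
          exact (hc hs).2.2.2 (hx s hs))
  obtain ⟨hMZ, hMcl, hMne, hMT⟩ := hM.1
  have hMc : IsCompact M := hZc.of_isClosed_subset hMcl hMZ
  -- an isolated point
  obtain ⟨h, hhM, U, hU, hhU⟩ : ∃ h ∈ M, ∃ U : Set α, IsOpen U ∧ U ∩ M = {h} := by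
    have : CompactSpace M := isCompact_iff_compactSpace.1 hMc
    have hcM : Countable M := (hcount.mono hMZ).to_subtype
    have : Nonempty M := hMne.to_subtype
    obtain ⟨x, hx⟩ := nonempty_interior_of_iUnion_of_closed (f := fun x : M => ({x} : Set M))
      (fun x => isClosed_singleton) (by ext x; simp)
    have hx' : IsOpen ({x} : Set M) := by
      have h1 : interior ({x} : Set M) = {x} := by
        apply subset_antisymm interior_subset
        obtain ⟨y, hy⟩ := hx
        have := interior_subset hy
        rw [Set.mem_singleton_iff] at this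
        subst this
        simpa using hy
      rw [← h1]; exact isOpen_interior
    obtain ⟨U, hU, hUx⟩ := isOpen_induced_iff.1 hx'
    refine ⟨x, x.2, U, hU, ?_⟩
    ext y
    constructor
    · rintro ⟨hy1, hy2⟩
      have : (⟨y, hy2⟩ : M) ∈ (Subtype.val ⁻¹' U : Set M) := hy1
      rw [hUx] at this
      have := congrArg Subtype.val (Set.mem_singleton_iff.1 this)
      simpa using this
    · rintro rfl
      refine ⟨?_, x.2⟩
      have : x ∈ (Subtype.val ⁻¹' U : Set M) := by rw [hUx]; rfl
      exact this
  -- the orbit of the image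
  have hit : ∀ n, T^[n + 1] h ∈ M := by
    intro n
    induction n with
    | zero => exact hMT hhM
    | succ n ih => rw [Function.iterate_succ_apply']; exact hMT ih
  set C := closure (Set.range fun n : ℕ => T^[n + 1] h) with hC
  have hCM : C ⊆ M := closure_minimal (by rintro _ ⟨n, rfl⟩; exact hit n) hMcl
  have hCT : Set.MapsTo T C C := by
    intro x hx
    refine map_mem_closure hT hx ?_
    rintro _ ⟨n, rfl⟩
    exact ⟨n + 1, by simp only [Function.iterate_succ_apply']⟩
  have hCne : C.Nonempty := ⟨T^[0 + 1] h, subset_closure ⟨0, rfl⟩⟩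
  have hMC : M ⊆ C := hM.2 ⟨hCM.trans hMZ, isClosed_closure, hCne, hCT⟩ hCM
  have hhC := hMC hhM
  have hhU' : h ∈ U := by
    have : h ∈ U ∩ M := by rw [hhU]; rfl
    exact this.1
  obtain ⟨y, hy, n, rfl⟩ := mem_closure_iff.1 hhC U hU hhU'
  refine ⟨h, hMZ hhM, n + 1, Nat.succ_pos n, ?_⟩
  have : T^[n + 1] h ∈ U ∩ M := ⟨hy, hit n⟩
  rw [hhU] at this
  exact this

end Pool.Agent.H343.Hr
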