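import Pool.Graph.R_seed8.Horo.Core
import Pool.Agent.H343.Hr.Per

/-!
# Groups with countably many Busemann points: elements of quotients
-/

set_option autoImplicit false

open Filter Topology

namespace Pool.Agent.H343.Hr

open Pool.Agent.Horo (LenFun)

universe u

variable {G : Type u} [Group G] {L : G → ℕ} {N : Subgroup G}

/-- length modulo `N` -/
noncomputable def mm (L : G → ℕ) (N : Subgroup G) (x : G) : ℕ :=
  sInf {k | ∃ a ∈ N, L (x * a) = k}

lemma mm_spec (L : G → ℕ) (N : Subgroup G) (x : G) : ∃ a ∈ N, L (x * a) = mm L N x :=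
  Nat.sInf_mem (s := {k | ∃ a ∈ N, L (x * a) = k}) ⟨_, 1, N.one_mem, rfl⟩

lemma mm_le (L : G → ℕ) {N : Subgroup G} (x : G) {a : G} (ha : a ∈ N) : mm L N x ≤ L (x * a) :=
  Nat.sInf_le ⟨a, ha, rfl⟩

lemma mm_le_self (L : G → ℕ) (N : Subgroup G) (x : G) : mm L N x ≤ L x := by
  have := mm_le L x N.one_mem
  rwa [mul_one] at this

lemma mm_mul_le (hL : LenFun L) (N : Subgroup G) (x y : G) :
    mm L N (x * y) ≤ L x + mm L N y := by
  obtain ⟨b, hb, h2⟩ := mm_spec L N y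
  have h3 := mm_le L (x * y) hb
  rw [mul_assoc] at h3
  have h5 := hL.mul_le x (y * b)
  omega

/-- descending letters -/
def EE (L : G → ℕ) (N : Subgroup G) (x : G) : Set G := {s | L s = 1 ∧ mm L N (s⁻¹ * x) + 1 = mm L N x}

lemma mem_EE (hL : LenFun L) {x s : G} (hs : L s = 1)
    (h : mm L N (s⁻¹ * x) + 1 ≤ mm L N x) : s ∈ EE L N x := by
  refine ⟨hs, le_antisymm h ?_⟩
  have h1 := mm_mul_le hL N s (s⁻¹ * x)
  rw [mul_inv_cancel_left] at h1
  omega

lemma EE_nonempty (hL : LenFun L) {x : G} (h : 1 ≤ mm L N x) :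
    (EE L N x).Nonempty := by
  obtain ⟨a, ha, h1⟩ := mm_spec L N x
  obtain ⟨y, hy1, hy2⟩ := hL.geo (x * a) 1 (by omega)
  refine ⟨y, mem_EE hL hy1 ?_⟩
  have h2 := mm_le L (y⁻¹ * x) ha
  rw [mul_assoc] at h2
  omega

/-- the first element of a set -/
noncomputable def pick (o : G → ℕ) (s : Set G) : G :=
  haveI := Classical.dec (s.Nonempty)
  if h : s.Nonempty then Classical.choose (show ∃ a ∈ s, ∀ b ∈ s, o a ≤ o b by
    obtain ⟨a, ha, h1⟩ := Nat.sInf_mem (h.image o)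
    exact ⟨a, ha, fun b hb => h1 ▸ Nat.sInf_le ⟨b, hb, rfl⟩⟩) else 1

lemma pick_spec (o : G → ℕ) {s : Set G} (h : s.Nonempty) :
    pick o s ∈ s ∧ ∀ b ∈ s, o (pick o s) ≤ o b := by
  unfold pick
  rw [dif_pos h]
  exact Classical.choose_spec (show ∃ a ∈ s, ∀ b ∈ s, o a ≤ o b by
    obtain ⟨a, ha, h1⟩ := Nat.sInf_mem (h.image o)
    exact ⟨a, ha, fun b hb => h1 ▸ Nat.sInf_le ⟨b, hb, rfl⟩⟩)

lemma pick_empty (o : G → ℕ) {s : Set G} (h : ¬ s.Nonempty) : pick o s = 1 := by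
  unfold pick
  rw [dif_neg h]

/-- the first letter -/
noncomputable def ee (L : G → ℕ) (N : Subgroup G) (o : G → ℕ) (x : G) : G := pick o (EE L N x)

lemma ee_le (hL : LenFun L) (o : G → ℕ) (x : G) : L (ee L N o x) ≤ 1 := by
  unfold ee
  by_cases h : (EE L N x).Nonempty
  · exact (pick_spec o h).1.1.le
  · rw [pick_empty o h, hL.one]
    omega

/-- the letters of the first shortest word -/
noncomputable def cod (L : G → ℕ) (N : Subgroup G) (o : G → ℕ) : ℕ → G → G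
  | 0, x => ee L N o x
  | n + 1, x => cod L N o n ((ee L N o x)⁻¹ * x)

lemma cod_le (hL : LenFun L) (o : G → ℕ) (n : ℕ) : ∀ x : G, L (cod L N o n x) ≤ 1 := by
  induction n with
  | zero => exact fun x => ee_le hL o x
  | succ n ih => exact fun x => ih _

/-- the shift -/
def sh (ω : ℕ → G) : ℕ → G := fun n => ω (n + 1)

lemma sh_iter (ω : ℕ → G) (i n : ℕ) : sh^[i] ω n = ω (n + i) := by
  induction i generalizing ω with
  | zero => rfl
  | succ i ih =>
    rw [Function.iterate_succ_apply, ih]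
    rfl

lemma sh_cod (L : G → ℕ) (N : Subgroup G) (o : G → ℕ) (x : G) :
    sh (fun n => cod L N o n x) = fun n => cod L N o n ((ee L N o x)⁻¹ * x) := rfl

/-- partial products -/
def pr : ℕ → (ℕ → G) → G
  | 0, _ => 1
  | n + 1, ω => ω 0 * pr n (sh ω)

lemma pr_congr (n : ℕ) : ∀ ω ω' : ℕ → G, (∀ i < n, ω i = ω' i) → pr n ω = pr n ω' := by
  induction n with
  | zero => intro _ _ _; rfl
  | succ n ih =>
    intro ω ω' h
    show ω 0 * pr n (sh ω) = ω' 0 * pr n (sh ω')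
    rw [h 0 (Nat.succ_pos n), ih (sh ω) (sh ω') fun i hi => h (i + 1) (by omega)]

lemma pr_add (i j : ℕ) : ∀ ω : ℕ → G, pr (i + j) ω = pr i ω * pr j (sh^[i] ω) := by
  induction i with
  | zero => intro ω; rw [Nat.zero_add]; show pr j ω = 1 * pr j ω; rw [one_mul]
  | succ i ih =>
    intro ω
    rw [show i + 1 + j = (i + j) + 1 by omega]
    show ω 0 * pr (i + j) (sh ω) = ω 0 * pr i (sh ω) * pr j (sh^[i] (sh ω))
    rw [ih, mul_assoc]

lemma pr_le (hL : LenFun L) (n : ℕ) : ∀ ω : ℕ → G, (∀ i, L (ω i) ≤ 1) → L (pr n ω) ≤ n := by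
  induction n with
  | zero => intro ω _; exact hL.one.le
  | succ n ih =>
    intro ω h
    have h1 := ih (sh ω) fun i => h (i + 1)
    have h2 := hL.mul_le (ω 0) (pr n (sh ω))
    have h3 := h 0
    show L (ω 0 * pr n (sh ω)) ≤ n + 1
    omega

lemma mm_ee (hL : LenFun L) (o : G → ℕ) {x : G} (h : 1 ≤ mm L N x) :
    mm L N ((ee L N o x)⁻¹ * x) + 1 = mm L N x :=
  (pick_spec o (EE_nonempty hL h)).1.2

lemma mm_pr (hL : LenFun L) (o : G → ℕ) (n : ℕ) : ∀ x : G, n ≤ mm L N x →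
    mm L N ((pr n fun i => cod L N o i x)⁻¹ * x) + n = mm L N x := by
  induction n with
  | zero =>
    intro x _
    show mm L N ((1 : G)⁻¹ * x) + 0 = _
    rw [inv_one, one_mul, Nat.add_zero]
  | succ n ih =>
    intro x hx
    have h1 := mm_ee (N := N) hL o (x := x) (by omega)
    have h2 := ih ((ee L N o x)⁻¹ * x) (by omega)
    show mm L N ((ee L N o x * pr n (fun i => cod L N o i ((ee L N o x)⁻¹ * x)))⁻¹ * x) + (n + 1)
      = _
    rw [mul_inv_rev, mul_assoc]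
    omega

/-- infinite words all of whose beginnings are beginnings of arbitrarily long first shortest
words -/
def ZZ (L : G → ℕ) (N : Subgroup G) (o : G → ℕ) : Set (ℕ → G) :=
  {ω | ∀ n k : ℕ, ∃ x : G, k ≤ mm L N x ∧ ∀ i < n, ω i = cod L N o i x}

lemma zz_letter (hL : LenFun L) {o : G → ℕ} {ω : ℕ → G} (h : ω ∈ ZZ L N o) (i : ℕ) :
    L (ω i) ≤ 1 := by
  obtain ⟨x, -, hx⟩ := h (i + 1) 0
  rw [hx i (by omega)]
  exact cod_le hL o i x

lemma zz_shift (hL : LenFun L) {o : G → ℕ} {ω : ℕ → G} (h : ω ∈ ZZ L N o) :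
    sh ω ∈ ZZ L N o := by
  intro n k
  obtain ⟨x, hx1, hx2⟩ := h (n + 1) (k + 1)
  refine ⟨(ee L N o x)⁻¹ * x, ?_, fun i hi => hx2 (i + 1) (by omega)⟩
  have := mm_ee (N := N) hL o (x := x) (by omega)
  omega

lemma zz_iter (hL : LenFun L) {o : G → ℕ} {ω : ℕ → G} (h : ω ∈ ZZ L N o)
    (i : ℕ) : sh^[i] ω ∈ ZZ L N o := by
  induction i with
  | zero => exact h
  | succ i ih =>
    rw [Function.iterate_succ_apply']
    exact zz_shift hL ih

lemma zz_len (hL : LenFun L) {o : G → ℕ} {ω : ℕ → G} (h : ω ∈ ZZ L N o)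
    (n : ℕ) : L (pr n ω) = n := by
  refine le_antisymm (pr_le hL n ω (zz_letter hL h)) ?_
  obtain ⟨x, hx1, hx2⟩ := h n n
  have h1 := mm_pr hL o n x hx1
  rw [← pr_congr n ω _ hx2] at h1
  have h2 := mm_mul_le hL N (pr n ω) ((pr n ω)⁻¹ * x)
  rw [mul_inv_cancel_left] at h2
  omega

lemma zz_ray (hL : LenFun L) {o : G → ℕ} {ω : ℕ → G} (h : ω ∈ ZZ L N o)
    (i j : ℕ) : L ((pr i ω)⁻¹ * pr (i + j) ω) = j := by
  rw [pr_add, inv_mul_cancel_left]
  exact zz_len hL (zz_iter hL h i) j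

/-- the Busemann function of a word -/
lemma exists_bus (hL : LenFun L) {o : G → ℕ} {ω : ℕ → G} (h : ω ∈ ZZ L N o)
    (z : G) : ∃ v : ℤ, ∀ᶠ n : ℕ in atTop, (L (z⁻¹ * pr n ω) : ℤ) - n = v := by
  have hb : ∀ n, n ≤ L z + L (z⁻¹ * pr n ω) := by
    intro n
    have h1 := hL.mul_le z (z⁻¹ * pr n ω)
    rw [mul_inv_cancel_left, zz_len hL h] at h1
    exact h1
  let f : ℕ → ℕ := fun n => L z + L (z⁻¹ * pr n ω) - n
  have hanti : Antitone f := by
    refine antitone_nat_of_succ_le fun n => ?_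
    have h1 := hL.mul_le (z⁻¹ * pr n ω) ((pr n ω)⁻¹ * pr (n + 1) ω)
    rw [zz_ray hL h n 1] at h1
    have h2 : z⁻¹ * pr n ω * ((pr n ω)⁻¹ * pr (n + 1) ω) = z⁻¹ * pr (n + 1) ω := by group
    rw [h2] at h1
    have h3 := hb n
    have h4 := hb (n + 1)
    show L z + L (z⁻¹ * pr (n + 1) ω) - (n + 1) ≤ L z + L (z⁻¹ * pr n ω) - n
    omega
  obtain ⟨n₀, hn₀⟩ := Nat.sInf_mem (Set.range_nonempty f)
  refine ⟨(f n₀ : ℤ) - L z, eventually_atTop.2 ⟨n₀, fun n hn => ?_⟩⟩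
  have h1 := hanti hn
  have h2 : f n₀ ≤ f n := by rw [hn₀]; exact Nat.sInf_le ⟨n, rfl⟩
  have h3 : f n = f n₀ := le_antisymm h1 h2
  have h4 := hb n
  have h5 : f n = L z + L (z⁻¹ * pr n ω) - n := rfl
  omega

/-- the Busemann function of a word -/
noncomputable def bus (L : G → ℕ) (N : Subgroup G) (o : G → ℕ) (ω : ℕ → G) (z : G) : ℤ :=
  haveI := Classical.dec (∃ v : ℤ, ∀ᶠ n : ℕ in atTop, (L (z⁻¹ * pr n ω) : ℤ) - n = v)
  if h : ∃ v : ℤ, ∀ᶠ n : ℕ in atTop, (L (z⁻¹ * pr n ω) : ℤ) - n = v then h.choose else 0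

lemma bus_spec (hL : LenFun L) {o : G → ℕ} {ω : ℕ → G} (h : ω ∈ ZZ L N o)
    (z : G) : ∀ᶠ n : ℕ in atTop, (L (z⁻¹ * pr n ω) : ℤ) - n = bus L N o ω z := by
  have h1 := exists_bus hL h z
  unfold bus
  rw [dif_pos h1]
  exact h1.choose_spec

lemma bus_first (hL : LenFun L) {o : G → ℕ} {ω : ℕ → G} (h : ω ∈ ZZ L N o) :
    bus L N o ω (ω 0) = -1 := by
  obtain ⟨n, hn, hn1⟩ := ((bus_spec hL h (ω 0)).and (eventually_ge_atTop 1)).exists
  rw [← hn]
  obtain ⟨m, rfl⟩ : ∃ m, n = m + 1 := ⟨n - 1, by omega⟩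
  have h1 : (ω 0)⁻¹ * pr (m + 1) ω = pr m (sh ω) := by
    show (ω 0)⁻¹ * (ω 0 * pr m (sh ω)) = _
    rw [inv_mul_cancel_left]
  rw [h1, zz_len hL (zz_shift hL h)]
  push_cast
  ring

lemma bus_shift (hL : LenFun L) {o : G → ℕ} {ω : ℕ → G} (h : ω ∈ ZZ L N o)
    (z : G) : bus L N o (sh ω) z = bus L N o ω (ω 0 * z) + 1 := by
  have h1 := bus_spec hL (zz_shift hL h) z
  have h2 := (tendsto_add_atTop_nat 1).eventually (bus_spec hL h (ω 0 * z))
  obtain ⟨n, hn1, hn2⟩ := (h1.and h2).exists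
  have h3 : (ω 0 * z)⁻¹ * pr (n + 1) ω = z⁻¹ * pr n (sh ω) := by
    show (ω 0 * z)⁻¹ * (ω 0 * pr n (sh ω)) = _
    group
  rw [h3] at hn2
  push_cast at hn2
  omega

lemma len_first (hL : LenFun L) {o : G → ℕ} {ω : ℕ → G} (h : ω ∈ ZZ L N o) :
    L (ω 0) = 1 := by
  have := zz_len hL h 1
  have h1 : pr 1 ω = ω 0 := by show ω 0 * 1 = ω 0; rw [mul_one]
  rwa [h1] at this

lemma first_min (hL : LenFun L) {o : G → ℕ} {ω : ℕ → G} (h : ω ∈ ZZ L N o)
    {s : G} (hs : L s = 1) (hb : bus L N o ω s = -1) : o (ω 0) ≤ o s := by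
  obtain ⟨n, hn, hn1⟩ := ((bus_spec hL h s).and (eventually_ge_atTop 1)).exists
  rw [hb] at hn
  obtain ⟨x, hx1, hx2⟩ := h n n
  have h1 := mm_pr hL o n x hx1
  rw [← pr_congr n ω _ hx2] at h1
  have h2 := mm_mul_le hL N (s⁻¹ * pr n ω) ((pr n ω)⁻¹ * x)
  have h3 : s⁻¹ * pr n ω * ((pr n ω)⁻¹ * x) = s⁻¹ * x := by group
  rw [h3] at h2
  have h5 : s ∈ EE L N x := mem_EE hL hs (by omega)
  have h6 : ω 0 = ee L N o x := hx2 0 (by omega)
  rw [h6]
  exact (pick_spec o ⟨s, h5⟩).2 s h5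

lemma bus_inj (hL : LenFun L) {o : G → ℕ} (ho : Function.Injective o) :
    Set.InjOn (bus L N o) (ZZ L N o) := by
  have key : ∀ n : ℕ, ∀ ω ∈ ZZ L N o, ∀ ω' ∈ ZZ L N o, bus L N o ω = bus L N o ω' →
      ω n = ω' n := by
    intro n
    induction n with
    | zero =>
      intro ω h ω' h' e
      apply ho
      apply le_antisymm
      · exact first_min hL h (len_first hL h') (by rw [e]; exact bus_first hL h')
      · exact first_min hL h' (len_first hL h) (by rw [← e]; exact bus_first hL h)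
    | succ n ih =>
      intro ω h ω' h' e
      have h0 : ω 0 = ω' 0 := by
        apply ho
        apply le_antisymm
        · exact first_min hL h (len_first hL h') (by rw [e]; exact bus_first hL h')
        · exact first_min hL h' (len_first hL h) (by rw [← e]; exact bus_first hL h)
      refine ih (sh ω) (zz_shift hL h) (sh ω') (zz_shift hL h') ?_
      funext z
      rw [bus_shift hL h, bus_shift hL h', h0, e]
  intro ω h ω' h' e
  funext n
  exact key n ω h ω' h' e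

/-- Busemann points -/
def Bus (L : G → ℕ) : Set (G → ℤ) :=
  {b | ∃ y : ℕ → G, y 0 = 1 ∧ (∀ i j, i ≤ j → L ((y i)⁻¹ * y j) = j - i) ∧
    ∀ z, ∀ᶠ n : ℕ in atTop, b z = (L (z⁻¹ * y n) : ℤ) - (L (y n) : ℤ)}

lemma bus_mem (hL : LenFun L) {o : G → ℕ} {ω : ℕ → G} (h : ω ∈ ZZ L N o) :
    bus L N o ω ∈ Bus L := by
  refine ⟨fun n => pr n ω, rfl, ?_, ?_⟩
  · intro i j hij
    obtain ⟨k, rfl⟩ := Nat.exists_eq_add_of_le hij
    have := zz_ray hL h i k
    show L ((pr i ω)⁻¹ * pr (i + k) ω) = i + k - i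
    omega
  · intro z
    filter_upwards [bus_spec hL h z] with n hn
    rw [zz_len hL h, hn]

lemma mm_unbounded (hL : LenFun L) (hfi : ¬ N.FiniteIndex) (k : ℕ) :
    ∃ x, k ≤ mm L N x := by
  by_contra hcon
  push Not at hcon
  apply hfi
  have hf : Finite {x | L x ≤ k} := (hL.fin k).to_subtype
  have hs : Function.Surjective (fun x : {x | L x ≤ k} => (QuotientGroup.mk x.1 : G ⧸ N)) := by
    intro q
    obtain ⟨x, rfl⟩ := QuotientGroup.mk_surjective q
    obtain ⟨a, ha, h1⟩ := mm_spec L N x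
    refine ⟨⟨x * a, by show L (x * a) ≤ k; rw [h1]; exact (hcon x).le⟩, ?_⟩
    show (QuotientGroup.mk (x * a) : G ⧸ N) = QuotientGroup.mk x
    rw [QuotientGroup.eq]
    have : (x * a)⁻¹ * x = a⁻¹ := by group
    rw [this]
    exact N.inv_mem ha
  have : Finite (G ⧸ N) := Finite.of_surjective _ hs
  exact Subgroup.finiteIndex_of_finite_quotient

theorem main (hL : LenFun L) (hfi : ¬ N.FiniteIndex) (hB : (Bus L).Countable) :
    ∃ w : G, 0 < L w ∧ ∀ n : ℕ, ∃ v : G, ∀ a ∈ N, n * L w + L v ≤ L (w ^ n * v * a) := by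
  classical
  have hcG : Countable G := by
    have : (Set.univ : Set G) = ⋃ r : ℕ, {x | L x ≤ r} := by
      ext x; simp only [Set.mem_univ, Set.mem_iUnion, Set.mem_ofPred_eq, true_iff]
      exact ⟨_, le_rfl⟩
    rw [← Set.countable_univ_iff, this]
    exact Set.countable_iUnion fun r => (hL.fin r).countable
  obtain ⟨o, ho⟩ := exists_injective_nat G
  have hZc : (ZZ L N o).Countable :=
    Set.MapsTo.countable_of_injOn (fun ω h => bus_mem hL h) (bus_inj hL ho) hB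
  let _ : TopologicalSpace G := ⊥
  have : DiscreteTopology G := ⟨rfl⟩
  have hcont : Continuous (sh : (ℕ → G) → (ℕ → G)) :=
    continuous_pi fun n => continuous_apply (n + 1)
  let Om : ℕ → Set (ℕ → G) := fun k => {ω | ∃ x : G, k ≤ mm L N x ∧ ω = fun i => cod L N o i x}
  have hK : IsCompact (Set.univ.pi fun _ : ℕ => {s : G | L s ≤ 1}) :=
    isCompact_univ_pi fun _ => (hL.fin 1).isCompact
  have hOmK : ∀ k, closure (Om k) ⊆ Set.univ.pi fun _ : ℕ => {s : G | L s ≤ 1} := by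
    intro k
    refine closure_minimal ?_ hK.isClosed
    rintro _ ⟨x, -, rfl⟩ i -
    exact cod_le hL o i x
  have hZZ : ZZ L N o = ⋂ k, closure (Om k) := by
    ext ω
    simp only [Set.mem_iInter]
    constructor
    · intro h k
      rw [mem_closure_iff]
      intro U hU hω
      obtain ⟨I, u, hu, hIU⟩ := isOpen_pi_iff.1 hU ω hω
      obtain ⟨x, hx1, hx2⟩ := h (I.sup id + 1) k
      refine ⟨fun i => cod L N o i x, hIU ?_, x, hx1, rfl⟩
      intro i hi
      have h1 : i < I.sup id + 1 := Nat.lt_succ_of_le (Finset.le_sup (f := id) hi)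
      show cod L N o i x ∈ u i
      rw [← hx2 i h1]
      exact (hu i hi).2
    · intro h n k
      have h1 := h k
      rw [mem_closure_iff] at h1
      obtain ⟨ω', hω', x, hx1, rfl⟩ := h1 (Set.pi (Finset.range n : Set ℕ) fun i => {ω i})
        (isOpen_set_pi (Finset.range n).finite_toSet fun i _ => isOpen_discrete _)
        (fun i _ => rfl)
      refine ⟨x, hx1, fun i hi => ?_⟩
      have := hω' i (by simpa using hi)
      exact (Set.mem_singleton_iff.1 this).symm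
  have hcomp : ∀ k, IsCompact (closure (Om k)) := fun k =>
    hK.of_isClosed_subset isClosed_closure (hOmK k)
  have hne : (ZZ L N o).Nonempty := by
    rw [hZZ]
    refine IsCompact.nonempty_iInter_of_sequence_nonempty_isCompact_isClosed _ ?_ ?_ (hcomp 0)
      fun _ => isClosed_closure
    · intro k
      apply closure_mono
      rintro _ ⟨x, hx, rfl⟩
      exact ⟨x, by omega, rfl⟩
    · intro k
      obtain ⟨x, hx⟩ := mm_unbounded hL hfi k
      exact ⟨_, subset_closure ⟨x, hx, rfl⟩⟩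
  have hZcomp : IsCompact (ZZ L N o) := by
    rw [hZZ]
    exact (hcomp 0).of_isClosed_subset (isClosed_iInter fun _ => isClosed_closure)
      (Set.iInter_subset _ 0)
  obtain ⟨ω, hω, p, hp, hper⟩ := exists_periodic hcont hZcomp hne
    (fun ω h => zz_shift hL h) hZc
  have hpow : ∀ n : ℕ, pr (p * n) ω = (pr p ω) ^ n := by
    intro n
    induction n with
    | zero => rw [Nat.mul_zero, pow_zero]; rfl
    | succ n ih =>
      rw [show p * (n + 1) = p + p * n by ring, pr_add, hper, ih, pow_succ']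
  have hlen : L (pr p ω) = p := zz_len hL hω p
  refine ⟨pr p ω, by omega, fun n => ?_⟩
  obtain ⟨x, hx1, hx2⟩ := hω (p * n) (p * n)
  have h1 := mm_pr hL o (p * n) x hx1
  rw [← pr_congr (p * n) ω _ hx2, hpow] at h1
  obtain ⟨b, hb, h2⟩ := mm_spec L N ((pr p ω ^ n)⁻¹ * x)
  refine ⟨(pr p ω ^ n)⁻¹ * x * b, fun a ha => ?_⟩
  have h3 := mm_le L x (N.mul_mem hb ha)
  have h4 : pr p ω ^ n * ((pr p ω ^ n)⁻¹ * x * b) * a = x * (b * a) := by group
  rw [h4, hlen, h2, mul_comm]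
  omega

/-- the case of normal subgroups -/
theorem main_normal (hL : LenFun L) (hN : N.Normal) (hfi : ¬ N.FiniteIndex)
    (hB : (Bus L).Countable) :
    ∃ w : G, 0 < L w ∧ ∀ n : ℕ, ∀ a ∈ N, n * L w ≤ L (w ^ n * a) := by
  obtain ⟨w, hw, h⟩ := main hL hfi hB
  refine ⟨w, hw, fun n a ha => ?_⟩
  obtain ⟨v, hv⟩ := h n
  have h1 := hv (v⁻¹ * a * v) (by
    have := hN.conj_mem a ha v⁻¹
    rwa [inv_inv] at this)
  have h2 : w ^ n * v * (v⁻¹ * a * v) = w ^ n * a * v := by group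
  rw [h2] at h1
  have h3 := hL.mul_le (w ^ n * a) v
  omega

/-- Busemann points are in the closure of the set of distance functions -/
theorem bus_sub (hL : LenFun L) :
    Bus L ⊆ closure (Set.range (Pool.Agent.Horo.bf L)) \ Set.range (Pool.Agent.Horo.bf L) := by
  rintro b ⟨y, hy0, hy, hb⟩
  have hlen : ∀ n, L (y n) = n := by
    intro n
    have := hy 0 n (Nat.zero_le n)
    rwa [hy0, inv_one, one_mul, Nat.sub_zero] at this
  refine ⟨?_, ?_⟩
  · rw [mem_closure_iff]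
    intro U hU hbU
    obtain ⟨I, u, hu, hIU⟩ := isOpen_pi_iff.1 hU b hbU
    have h1 : ∀ᶠ n : ℕ in atTop, ∀ z ∈ I, b z = (L (z⁻¹ * y n) : ℤ) - (L (y n) : ℤ) :=
      (Filter.eventually_all_finset I).2 fun z _ => hb z
    obtain ⟨n, hn⟩ := h1.exists
    refine ⟨Pool.Agent.Horo.bf L (y n), hIU ?_, ⟨y n, rfl⟩⟩
    intro z hz
    have h2 := (hu z hz).2
    rw [hn z hz] at h2
    exact h2
  · rintro ⟨x, rfl⟩
    obtain ⟨n, hn, hn1⟩ := ((hb (y (L x + 1))).and (eventually_ge_atTop (L x + 1))).exists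
    rw [hy _ _ hn1, hlen] at hn
    have h1 : Pool.Agent.Horo.bf L x (y (L x + 1))
        = (L ((y (L x + 1))⁻¹ * x) : ℤ) - (L x : ℤ) := rfl
    rw [h1] at hn
    omega

end Pool.Agent.H343.Hr
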